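import Mathlib

/-!
# The geometric step

Points `(r i, z i)` of `[0, ∞) × H`, `H` a real inner product space, outside the ball of radius
`2`, with `r i + r j ≥ √3`, `r i + r j + r k ≥ 2√3`, and `‖z i - z j‖ ≤ 3` when `r i + r j < 2`.
Then some point `(-t, w)` with `t ≥ √3` of the ball of radius `2` is at distance `≥ 2√3` from all
of them.
-/

namespace Pool.Agent.J4.H78.PC

/-- The numbers of the pair case. -/
lemma pair_num {σ r a b D L : ℝ} (hσ : σ ^ 2 ≤ 4) (hr : 16 * (r - σ / 2) ^ 2 ≤ 3 * (4 - σ ^ 2))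
    (ha : 4 - r ^ 2 ≤ a) (hD : D ≤ 9) (hL : 0 < L) (hL2 : L ^ 2 = 2 * a + 2 * b - D) :
    12 ≤ (σ + r) ^ 2 + ((4 - σ ^ 2) + a + √(4 - σ ^ 2) / L * (3 * a + b - D)) := by
  set u := √(4 - σ ^ 2) with hu
  have hu0 : 0 ≤ u := Real.sqrt_nonneg _
  have hu2 : u ^ 2 = 4 - σ ^ 2 := Real.sq_sqrt (by linarith)
  -- `(3a+b-D)/L ≥ v` with `v² = 4a - D`
  have h7 : 0 ≤ 7 - 4 * r ^ 2 := by nlinarith [sq_nonneg (7 * σ - 8 * r)]
  set v := √(4 * a - D) with hv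
  have hv0 : 0 ≤ v := Real.sqrt_nonneg _
  have hv2 : v ^ 2 = 4 * a - D := Real.sq_sqrt (by nlinarith)
  have h1 : v * L ≤ 3 * a + b - D := by
    nlinarith [sq_nonneg (v - L)]
  have h2 : v ≤ (3 * a + b - D) / L := by rwa [le_div_iff₀ hL]
  have h3 : u * v ≤ u / L * (3 * a + b - D) := by
    have := mul_le_mul_of_nonneg_left h2 hu0
    calc u * v ≤ u * ((3 * a + b - D) / L) := this
      _ = u / L * (3 * a + b - D) := by ring
  have h4 : 4 - 2 * σ * r ≤ u * v := by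
    by_contra hlt
    push Not at hlt
    have h5 : (u * v) ^ 2 < (4 - 2 * σ * r) ^ 2 := pow_lt_pow_left₀ hlt (by positivity) (by norm_num)
    have h6 : (4 - σ ^ 2) * (7 - 4 * r ^ 2) ≤ (u * v) ^ 2 := by
      rw [mul_pow, hu2, hv2]
      apply mul_le_mul_of_nonneg_left _ (by linarith)
      nlinarith
    nlinarith
  nlinarith

/-- Nonadjacent points, single case. -/
lemma single_far {s r x q p : ℝ} (hs : s ^ 2 = 3) (hs0 : 0 < s) (hr0 : 0 ≤ r) (hx0 : 0 ≤ x)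
    (hq0 : 0 ≤ q) (hp0 : 0 ≤ p) (hq : q ^ 2 = 4 - r ^ 2) (hp : p ^ 2 = 4 - x ^ 2)
    (hrx : 2 ≤ r + x) : 4 ≤ (s * q + r) * x - (q - s * r) * p := by
  set A := q * x + r * p with hA
  set B := q * p - r * x with hB
  have hA0 : 0 ≤ A := by positivity
  have hAB : A ^ 2 + B ^ 2 = 16 := by
    have : A ^ 2 + B ^ 2 = (q ^ 2 + r ^ 2) * (p ^ 2 + x ^ 2) := by rw [hA, hB]; ring
    rw [this, hq, hp]; ring
  have hB2 : B ≤ 2 := by
    by_contra hlt
    push Not at hlt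
    have h1 : (2 + r * x) ^ 2 < (q * p) ^ 2 :=
      pow_lt_pow_left₀ (by linarith) (by positivity) (by norm_num)
    rw [mul_pow, hq, hp] at h1
    nlinarith [sq_nonneg (r - x)]
  have hB4 : -4 ≤ B := by nlinarith
  have h2 : 4 + B ≤ s * A := by
    have h3 : (4 + B) ^ 2 ≤ (s * A) ^ 2 := by
      rw [mul_pow, hs]; nlinarith
    exact (abs_le_of_sq_le_sq' h3 (by positivity)).2
  have h4 : (s * q + r) * x - (q - s * r) * p = s * A - B := by rw [hA, hB]; ring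
  linarith

/-- Adjacent points, single case, the boundary `x = s - r`. -/
lemma single_near_a {s r q : ℝ} (hs : s ^ 2 = 3) (hs0 : 0 < s) (hr0 : 0 ≤ r)
    (hq : q ^ 2 = 4 - r ^ 2) (hr : r ≤ 2 * s - 3) :
    0 ≤ q * (s * q + r) * (s - r) - (q - s * r) * (1 + r ^ 2 + (s - r) ^ 2) / 2 - 4 * q := by
  have hs1 : 1.732 < s := by nlinarith
  have hs2 : s < 1.7321 := by nlinarith
  obtain ⟨ξ, rfl⟩ : ∃ ξ, r = s * ξ := ⟨r / s, by field_simp⟩
  have hξ0 : 0 ≤ ξ := by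
    by_contra hlt
    push Not at hlt
    nlinarith
  have hξ1 : ξ ≤ 0.268 := by
    by_contra hlt
    push Not at hlt
    nlinarith
  have hq1 : q ^ 2 = 4 - 3 * ξ ^ 2 := by rw [hq, mul_pow, hs]
  have hq2 : q ≤ 2 - 3 / 4 * ξ ^ 2 := by
    by_contra hlt
    push Not at hlt
    have h0 : 0 ≤ 2 - 3 / 4 * ξ ^ 2 := by nlinarith
    have h1 := pow_lt_pow_left₀ hlt h0 (n := 2) (by norm_num)
    nlinarith [sq_nonneg (ξ ^ 2)]
  have hP : q * (s * q + s * ξ) * (s - s * ξ) - (q - s * (s * ξ)) * (1 + (s * ξ) ^ 2 +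
      (s - s * ξ) ^ 2) / 2 - 4 * q = (12 - 6 * ξ - 18 * ξ ^ 2 + 18 * ξ ^ 3) -
        q * (6 - 6 * ξ + 6 * ξ ^ 2) := by
    have e : q * (s * q + s * ξ) * (s - s * ξ) - (q - s * (s * ξ)) * (1 + (s * ξ) ^ 2 +
      (s - s * ξ) ^ 2) / 2 - 4 * q = s ^ 2 * (q ^ 2 + q * ξ) * (1 - ξ) -
        (q - s ^ 2 * ξ) * (1 + s ^ 2 * (ξ ^ 2 + (1 - ξ) ^ 2)) / 2 - 4 * q := by ring
    rw [e, hs, hq1]; ring
  rw [hP]
  have hQ0 : 0 ≤ 6 - 6 * ξ + 6 * ξ ^ 2 := by nlinarith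
  have h1 := mul_le_mul_of_nonneg_right hq2 hQ0
  have h2 : (12 - 6 * ξ - 18 * ξ ^ 2 + 18 * ξ ^ 3) - (2 - 3 / 4 * ξ ^ 2) * (6 - 6 * ξ + 6 * ξ ^ 2)
      = 6 * ξ * (1 - 17 / 4 * ξ + 9 / 4 * ξ ^ 2 + 3 / 4 * ξ ^ 3) := by ring
  have h3 : 0 ≤ 1 - 17 / 4 * ξ + 9 / 4 * ξ ^ 2 := by nlinarith
  have h4 : 0 ≤ 6 * ξ * (1 - 17 / 4 * ξ + 9 / 4 * ξ ^ 2 + 3 / 4 * ξ ^ 3) := by positivity
  linarith

/-- Adjacent points, single case, the boundary `x = (3 - r) / 2`. -/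
lemma single_near_b {s r q : ℝ} (hs : s ^ 2 = 3) (hs0 : 0 < s) (hr1 : r ≤ 1)
    (hq : q ^ 2 = 4 - r ^ 2) (hr : 2 * s - 3 ≤ r) :
    0 ≤ q * (s * q + r) * ((3 - r) / 2) -
      (q - s * r) * (1 + r ^ 2 + ((3 - r) / 2) ^ 2) / 2 - 4 * q := by
  have hs1 : 1.732 < s := by nlinarith
  have hr0 : 0.464 ≤ r := by linarith
  have hP : q * (s * q + r) * ((3 - r) / 2) -
      (q - s * r) * (1 + r ^ 2 + ((3 - r) / 2) ^ 2) / 2 - 4 * q =
      (3 / 8) * (s * (16 - r - 6 * r ^ 2 + 3 * r ^ 3) - q * (15 - 6 * r + 3 * r ^ 2)) := by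
    have e : q * (s * q + r) * ((3 - r) / 2) -
      (q - s * r) * (1 + r ^ 2 + ((3 - r) / 2) ^ 2) / 2 - 4 * q =
      (s * q ^ 2 + q * r) * ((3 - r) / 2) -
      (q - s * r) * (1 + r ^ 2 + ((3 - r) / 2) ^ 2) / 2 - 4 * q := by ring
    rw [e, hq]; ring
  rw [hP]
  have h1 : 0 ≤ 16 - r - 6 * r ^ 2 + 3 * r ^ 3 := by nlinarith [sq_nonneg r, pow_nonneg (by linarith : (0:ℝ) ≤ r) 3]
  have h2 : (q * (15 - 6 * r + 3 * r ^ 2)) ^ 2 ≤ (s * (16 - r - 6 * r ^ 2 + 3 * r ^ 3)) ^ 2 := by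
    rw [mul_pow, mul_pow, hs, hq]
    have e : 3 * (16 - r - 6 * r ^ 2 + 3 * r ^ 3) ^ 2 - (4 - r ^ 2) * (15 - 6 * r + 3 * r ^ 2) ^ 2
      = 3 * (1 - r) ^ 2 * (64 - 96 * (1 - r) - 24 * (1 - r) ^ 3 + 12 * (1 - r) ^ 4) := by ring
    have h3 : 0 ≤ 64 - 96 * (1 - r) - 24 * (1 - r) ^ 3 := by
      have h4 : (1 - r) ≤ 0.54 := by linarith
      have h5 : (1 - r) ^ 3 ≤ 0.54 ^ 3 := pow_le_pow_left₀ (by linarith) h4 3
      norm_num at h5 ⊢
      linarith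
    have h6 : 0 ≤ 3 * (1 - r) ^ 2 * (64 - 96 * (1 - r) - 24 * (1 - r) ^ 3 + 12 * (1 - r) ^ 4) := by
      positivity
    linarith
  have h3 : q * (15 - 6 * r + 3 * r ^ 2) ≤ s * (16 - r - 6 * r ^ 2 + 3 * r ^ 3) :=
    (abs_le_of_sq_le_sq' h2 (by positivity)).2
  linarith

/-- Adjacent points, single case. -/
lemma single_near {s r x q : ℝ} (hs : s ^ 2 = 3) (hs0 : 0 < s) (hr0 : 0 ≤ r) (hr1 : r ≤ 1)
    (hq0 : 0 ≤ q) (hq : q ^ 2 = 4 - r ^ 2) (hx : x ≤ s) (hrx : s ≤ r + x)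
    (hell : 12 ≤ 7 * r ^ 2 + 7 * x ^ 2 - 2 * r * x) :
    0 ≤ q * (s * q + r) * x - (q - s * r) * (1 + r ^ 2 + x ^ 2) / 2 - 4 * q := by
  have hs1 : 1.732 < s := by nlinarith
  have hqs : s ≤ q := by
    by_contra hlt
    push Not at hlt
    nlinarith
  have hqsr : s * r ≤ q := by nlinarith
  -- monotonicity in `x`
  have mono : ∀ x₀, x₀ ≤ x → x₀ ≤ s →
      0 ≤ q * (s * q + r) * x₀ - (q - s * r) * (1 + r ^ 2 + x₀ ^ 2) / 2 - 4 * q →
      0 ≤ q * (s * q + r) * x - (q - s * r) * (1 + r ^ 2 + x ^ 2) / 2 - 4 * q := by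
    intro x₀ h1 h2 h3
    have h4 : (q * (s * q + r) * x - (q - s * r) * (1 + r ^ 2 + x ^ 2) / 2 - 4 * q) -
        (q * (s * q + r) * x₀ - (q - s * r) * (1 + r ^ 2 + x₀ ^ 2) / 2 - 4 * q) =
        (x - x₀) * (q * (s * q + r) - (q - s * r) * (x + x₀) / 2) := by ring
    have h5 : 0 ≤ q * (s * q + r) - (q - s * r) * (x + x₀) / 2 := by
      have h6 : (q - s * r) * (x + x₀) / 2 ≤ (q - s * r) * s := by
        have := mul_le_mul_of_nonneg_left (by linarith : (x + x₀) / 2 ≤ s)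
          (by linarith : 0 ≤ q - s * r)
        linarith
      nlinarith [mul_nonneg hs0.le hr0, mul_nonneg hq0 hr0]
    have h7 : 0 ≤ (x - x₀) * (q * (s * q + r) - (q - s * r) * (x + x₀) / 2) :=
      mul_nonneg (by linarith) h5
    linarith
  rcases le_total r (2 * s - 3) with h | h
  · exact mono (s - r) (by linarith) (by linarith) (single_near_a hs hs0 hr0 hq h)
  · refine mono ((3 - r) / 2) ?_ ?_ (single_near_b hs hs0 hr1 hq h)
    · -- `r + 2x ≥ 3`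
      by_contra hlt
      push Not at hlt
      have hx0 : 0 ≤ x := by linarith
      have hx1 : x ≤ (3 - r) / 2 := hlt.le
      have h1 : 7 * r ^ 2 + 7 * x ^ 2 - 2 * r * x <
          7 * r ^ 2 + 7 * ((3 - r) / 2) ^ 2 - 2 * r * ((3 - r) / 2) := by
        have : (7 * r ^ 2 + 7 * ((3 - r) / 2) ^ 2 - 2 * r * ((3 - r) / 2)) -
          (7 * r ^ 2 + 7 * x ^ 2 - 2 * r * x) =
          ((3 - r) / 2 - x) * (7 * ((3 - r) / 2 + x) - 2 * r) := by ring
        have h2 : 0 < ((3 - r) / 2 - x) * (7 * ((3 - r) / 2 + x) - 2 * r) :=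
          mul_pos (by linarith) (by linarith)
        linarith
      have h3 : 7 * r ^ 2 + 7 * ((3 - r) / 2) ^ 2 - 2 * r * ((3 - r) / 2) - 12 =
        3 / 4 * ((13 * r - 5) * (r - 1)) := by ring
      have h4 : (13 * r - 5) * (r - 1) ≤ 0 :=
        mul_nonpos_of_nonneg_of_nonpos (by linarith) (by linarith)
      linarith
    · nlinarith

section space

variable {H : Type*} [NormedAddCommGroup H] [InnerProductSpace ℝ H]

/-- The pair case. -/
lemma pair_case {ι : Type*} {s : ℝ} (hs : s ^ 2 = 3) (hs0 : 0 < s) (r : ι → ℝ) (z : ι → H)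
    (h1 : ∀ i, 4 ≤ r i ^ 2 + ‖z i‖ ^ 2)
    (h2 : ∀ i j, i ≠ j → s ≤ r i + r j)
    (h3 : ∀ i j k, i ≠ j → i ≠ k → j ≠ k → 2 * s ≤ r i + r j + r k)
    (h4 : ∀ i j, i ≠ j → r i + r j < 2 → ‖z i - z j‖ ≤ 3)
    (i j : ι) (hij : i ≠ j) (hi : r i < 1) (hell : 7 * r i ^ 2 + 7 * r j ^ 2 - 2 * r i * r j ≤ 12) :
    ∃ (t : ℝ) (w : H), s ≤ t ∧ t ^ 2 + ‖w‖ ^ 2 ≤ 4 ∧ (∀ i, 12 ≤ (t + r i) ^ 2 + ‖w - z i‖ ^ 2) ∧
      (∀ i, t + r i < 2 → ‖w - z i‖ ≤ 3) := by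
  have hs1 : 1.732 < s := by nlinarith
  set σ := r i + r j with hσ
  have hσs : s ≤ σ := h2 i j hij
  have hσ2 : σ < 2 := by
    by_contra hlt
    push Not at hlt
    nlinarith [sq_nonneg (r i - r j)]
  have hD := h4 i j hij hσ2
  have hD2 : ‖z i - z j‖ ^ 2 ≤ 9 := by
    have := pow_le_pow_left₀ (norm_nonneg _) hD 2
    linarith
  have hS : ‖z i + z j‖ ^ 2 = 2 * ‖z i‖ ^ 2 + 2 * ‖z j‖ ^ 2 - ‖z i - z j‖ ^ 2 := by
    have := parallelogram_law_with_norm ℝ (z i) (z j)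
    nlinarith
  have hsum : r i ^ 2 + r j ^ 2 ≤ 2 := by nlinarith [sq_nonneg (r i - r j)]
  have hSpos : 0 < ‖z i + z j‖ := by
    have h5 : 0 < ‖z i + z j‖ ^ 2 := by
      rw [hS]; nlinarith [h1 i, h1 j]
    by_contra hlt
    have : ‖z i + z j‖ = 0 := le_antisymm (not_lt.1 hlt) (norm_nonneg _)
    rw [this] at h5; norm_num at h5
  have hσ4 : 0 ≤ 4 - σ ^ 2 := by nlinarith
  set u := √(4 - σ ^ 2) with hu
  have hu0 : 0 ≤ u := Real.sqrt_nonneg _
  have hu2 : u ^ 2 = 4 - σ ^ 2 := Real.sq_sqrt hσ4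
  set w : H := -((u / ‖z i + z j‖) • (z i + z j)) with hw
  have hwn : ‖w‖ ^ 2 = 4 - σ ^ 2 := by
    rw [hw, norm_neg, norm_smul, Real.norm_of_nonneg (by positivity), div_mul_cancel₀ _ hSpos.ne',
      hu2]
  -- the distance to the two points
  have dist : ∀ a b : H, (a = z i ∧ b = z j ∨ a = z j ∧ b = z i) →
      ‖w - a‖ ^ 2 = (4 - σ ^ 2) + ‖a‖ ^ 2 +
        u / ‖z i + z j‖ * (3 * ‖a‖ ^ 2 + ‖b‖ ^ 2 - ‖z i - z j‖ ^ 2) := by
    intro a b hab
    have e1 : z i + z j = a + b := by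
      rcases hab with ⟨rfl, rfl⟩ | ⟨rfl, rfl⟩
      · rfl
      · rw [add_comm]
    have e2 : ‖z i - z j‖ ^ 2 = ‖a - b‖ ^ 2 := by
      rcases hab with ⟨rfl, rfl⟩ | ⟨rfl, rfl⟩
      · rfl
      · rw [norm_sub_rev]
    rw [norm_sub_sq_real, hwn, e2]
    have e3 : inner ℝ w a = -(u / ‖z i + z j‖ * (‖a‖ ^ 2 + inner ℝ a b)) := by
      rw [hw, inner_neg_left, inner_smul_left, e1, inner_add_left, real_inner_self_eq_norm_sq,
        real_inner_comm b a]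
      simp
    rw [e3, norm_sub_sq_real]
    ring
  have hell2 : 16 * (r i - σ / 2) ^ 2 ≤ 3 * (4 - σ ^ 2) := by
    rw [hσ]; nlinarith
  have hell3 : 16 * (r j - σ / 2) ^ 2 ≤ 3 * (4 - σ ^ 2) := by
    rw [hσ]; nlinarith
  refine ⟨σ, w, hσs, by linarith, ?_, ?_⟩
  · intro k
    by_cases hki : k = i
    · subst hki
      rw [dist (z k) (z j) (Or.inl ⟨rfl, rfl⟩)]
      exact pair_num (by linarith) hell2 (by linarith [h1 k]) hD2 hSpos hS
    by_cases hkj : k = j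
    · subst hkj
      rw [dist (z k) (z i) (Or.inr ⟨rfl, rfl⟩)]
      exact pair_num (by linarith) hell3 (by linarith [h1 k]) hD2 hSpos (by linarith)
    have h5 := h3 i j k hij (Ne.symm hki) (Ne.symm hkj)
    have h6 : 2 * s ≤ σ + r k := h5
    have h7 : (2 * s) ^ 2 ≤ (σ + r k) ^ 2 := pow_le_pow_left₀ (by linarith) h6 2
    nlinarith [sq_nonneg ‖w - z k‖]
  · intro k hk
    exfalso
    have hs4 : ∀ x, 16 * (x - σ / 2) ^ 2 ≤ 3 * (4 - σ ^ 2) → 2 ≤ σ + x := by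
      intro x hx
      by_contra hlt
      push Not at hlt
      have hσs2 : s ^ 2 ≤ σ ^ 2 := pow_le_pow_left₀ hs0.le hσs 2
      have h8 : (σ / 2 - x) ^ 2 ≤ (s / 4) ^ 2 := by nlinarith
      have h9 := (abs_le_of_sq_le_sq' h8 (by linarith)).2
      linarith
    by_cases hki : k = i
    · subst hki; linarith [hs4 _ hell2]
    by_cases hkj : k = j
    · subst hkj; linarith [hs4 _ hell3]
    have h5 := h3 i j k hij (Ne.symm hki) (Ne.symm hkj)
    linarith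

/-- The single case. -/
lemma single_case {ι : Type*} {s : ℝ} (hs : s ^ 2 = 3) (hs0 : 0 < s) (r : ι → ℝ) (z : ι → H)
    (h0 : ∀ i, 0 ≤ r i) (h1 : ∀ i, 4 ≤ r i ^ 2 + ‖z i‖ ^ 2)
    (h2 : ∀ i j, i ≠ j → s ≤ r i + r j)
    (h4 : ∀ i j, i ≠ j → r i + r j < 2 → ‖z i - z j‖ ≤ 3)
    (i : ι) (hi : r i < 1)
    (hell : ∀ j, j ≠ i → 12 < 7 * r i ^ 2 + 7 * r j ^ 2 - 2 * r i * r j) :
    ∃ (t : ℝ) (w : H), s ≤ t ∧ t ^ 2 + ‖w‖ ^ 2 ≤ 4 ∧ (∀ i, 12 ≤ (t + r i) ^ 2 + ‖w - z i‖ ^ 2) ∧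
      (∀ i, t + r i < 2 → ‖w - z i‖ ≤ 3) := by
  have hs1 : 1.732 < s := by nlinarith
  have hri := h0 i
  set q := √(4 - r i ^ 2) with hq
  have hq0 : 0 ≤ q := Real.sqrt_nonneg _
  have hq2 : q ^ 2 = 4 - r i ^ 2 := Real.sq_sqrt (by nlinarith)
  have hqs : s ≤ q := by
    by_contra hlt
    push Not at hlt
    nlinarith
  have hqpos : 0 < q := by linarith
  have hqsr : s * r i ≤ q := by nlinarith
  have hq4 : q ≤ 2 := by
    by_contra hlt
    push Not at hlt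
    nlinarith
  set Z := ‖z i‖ with hZ
  have hZq : q ≤ Z := by
    have h5 : q ^ 2 ≤ Z ^ 2 := by rw [hq2]; linarith [h1 i]
    exact (abs_le_of_sq_le_sq' h5 (norm_nonneg _)).2
  have hZpos : 0 < Z := by linarith
  set ω₀ := (q - s * r i) / 2 with hω₀
  set t₀ := (s * q + r i) / 2 with ht₀
  have hω₀0 : 0 ≤ ω₀ := by rw [hω₀]; linarith
  have hω₀1 : ω₀ ≤ 1 := by
    rw [hω₀]; linarith [mul_nonneg hs0.le hri]
  have ht₀0 : 0 ≤ t₀ := by positivity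
  have h40 : t₀ ^ 2 + ω₀ ^ 2 = 4 := by
    have : t₀ ^ 2 + ω₀ ^ 2 = (s ^ 2 + 1) * (q ^ 2 + r i ^ 2) / 4 := by rw [ht₀, hω₀]; ring
    rw [this, hs, hq2]; ring
  have h20 : t₀ * r i + ω₀ * q = 2 := by
    have : t₀ * r i + ω₀ * q = (q ^ 2 + r i ^ 2) / 2 := by rw [ht₀, hω₀]; ring
    rw [this, hq2]; ring
  -- the choice of `ω`
  obtain ⟨ω, hω0, hωω, hcase⟩ : ∃ ω, 0 ≤ ω ∧ ω ≤ ω₀ ∧ (ω = ω₀ ∧ Z + ω ≤ 3 ∨ Z + ω = 3 ∨
      ω = 0 ∧ 3 ≤ Z) := by
    rcases le_total 3 Z with h | h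
    · exact ⟨0, le_rfl, hω₀0, Or.inr (Or.inr ⟨rfl, h⟩)⟩
    · rcases le_total (Z + ω₀) 3 with h' | h'
      · exact ⟨ω₀, hω₀0, le_rfl, Or.inl ⟨rfl, h'⟩⟩
      · exact ⟨3 - Z, by linarith, by linarith, Or.inr (Or.inl (by ring))⟩
  set t := √(4 - ω ^ 2) with ht
  have ht0 : 0 ≤ t := Real.sqrt_nonneg _
  have ht2 : t ^ 2 = 4 - ω ^ 2 := Real.sq_sqrt (by nlinarith)
  have hts : s ≤ t := by
    have h5 : s ^ 2 ≤ t ^ 2 := by rw [hs, ht2]; nlinarith
    exact (abs_le_of_sq_le_sq' h5 ht0).2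
  set y : H := (1 / Z) • z i with hy
  have hyn : ‖y‖ = 1 := by
    rw [hy, norm_smul, Real.norm_of_nonneg (by positivity), ← hZ]
    field_simp
  set w : H := -(ω • y) with hw
  have hwn : ‖w‖ = ω := by
    rw [hw, norm_neg, norm_smul, hyn, Real.norm_of_nonneg hω0, mul_one]
  have hwi : ‖w - z i‖ = Z + ω := by
    have e : w - z i = -((1 + ω / Z) • z i) := by
      rw [hw, hy, smul_smul, add_smul, one_smul]
      have : ω * (1 / Z) = ω / Z := by ring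
      rw [this]; abel
    rw [e, norm_neg, norm_smul, Real.norm_of_nonneg (by positivity), ← hZ]
    field_simp
  refine ⟨t, w, hts, by rw [hwn]; linarith, ?_, ?_⟩
  · intro j
    by_cases hji : j = i
    · subst hji
      rw [hwi]
      rcases hcase with ⟨h, -⟩ | h | ⟨h, h'⟩
      · have htt : t = t₀ := by
          have h5 : t ^ 2 = t₀ ^ 2 := by rw [ht2, h]; linarith
          exact (pow_left_inj₀ ht0 ht₀0 (by norm_num)).1 h5
        rw [htt, h]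
        have h6 : ω₀ * q ≤ ω₀ * Z := mul_le_mul_of_nonneg_left hZq hω₀0
        have e : (t₀ + r j) ^ 2 + (Z + ω₀) ^ 2 = (t₀ ^ 2 + ω₀ ^ 2) + (r j ^ 2 + Z ^ 2) +
          2 * (t₀ * r j) + 2 * (ω₀ * Z) := by ring
        rw [e]
        linarith [h1 j]
      · rw [h]
        have h5 : s ^ 2 ≤ (t + r j) ^ 2 := pow_le_pow_left₀ hs0.le (by linarith) 2
        linarith
      · have h5 : s ^ 2 ≤ (t + r j) ^ 2 := pow_le_pow_left₀ hs0.le (by linarith) 2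
        have h6 : (3 : ℝ) ^ 2 ≤ (Z + ω) ^ 2 := pow_le_pow_left₀ (by norm_num) (by linarith) 2
        linarith
    · -- other points
      have hrj := h0 j
      have hellj := hell j hji
      have hrj1 : 1 ≤ r j := by
        by_contra hlt
        push Not at hlt
        have e : 12 - (7 * r i ^ 2 + 7 * r j ^ 2 - 2 * r i * r j) =
          (1 - r i) * (5 + 7 * r i) + (1 - r j) * (7 + 7 * r j - 2 * r i) := by ring
        linarith [mul_nonneg (by linarith : 0 ≤ 1 - r i) (by linarith : 0 ≤ 5 + 7 * r i),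
          mul_nonneg (by linarith : 0 ≤ 1 - r j) (by linarith : 0 ≤ 7 + 7 * r j - 2 * r i)]
      by_cases hjs : s ≤ r j
      · have h5 : (2 * s) ^ 2 ≤ (t + r j) ^ 2 := pow_le_pow_left₀ (by linarith) (by linarith) 2
        have e : (2 * s) ^ 2 = 12 := by rw [mul_pow, hs]; norm_num
        linarith [sq_nonneg ‖w - z j‖]
      push Not at hjs
      set p := inner ℝ y (z j) with hp
      have hdist : ‖w - z j‖ ^ 2 = ω ^ 2 + 2 * ω * p + ‖z j‖ ^ 2 := by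
        rw [norm_sub_sq_real, hwn]
        have : inner ℝ w (z j) = -(ω * p) := by
          rw [hw, inner_neg_left, inner_smul_left]; simp [hp]
        rw [this]; ring
      -- at `ω₀`
      have hmain : 8 ≤ 2 * (t₀ * r j + ω₀ * p) + (r j ^ 2 + ‖z j‖ ^ 2) := by
        have hzj : 4 - r j ^ 2 ≤ ‖z j‖ ^ 2 := by linarith [h1 j]
        rcases le_or_gt 2 (r i + r j) with hfar | hnear
        · have hp1 : -‖z j‖ ≤ p := by
            have := abs_real_inner_le_norm y (z j)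
            rw [hyn, one_mul] at this
            exact (abs_le.1 this).1
          set qj := √(4 - r j ^ 2) with hqj
          have hqj0 : 0 ≤ qj := Real.sqrt_nonneg _
          have hrjs' : r j ^ 2 < s ^ 2 := pow_lt_pow_left₀ hjs hrj (by norm_num)
          have hqj2 : qj ^ 2 = 4 - r j ^ 2 := Real.sq_sqrt (by linarith)
          have hrjs : r j ^ 2 < 3 := by
            rw [← hs]; exact pow_lt_pow_left₀ hjs hrj (by norm_num)
          have hqj1 : 1 ≤ qj := by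
            have h5 : (1 : ℝ) ^ 2 ≤ qj ^ 2 := by rw [hqj2]; linarith
            exact (abs_le_of_sq_le_sq' h5 hqj0).2
          have hqjz : qj ≤ ‖z j‖ := by
            have h5 : qj ^ 2 ≤ ‖z j‖ ^ 2 := by rw [hqj2]; linarith
            exact (abs_le_of_sq_le_sq' h5 (norm_nonneg _)).2
          have h5 := single_far hs hs0 hri hrj hq0 hqj0 hq2 hqj2 hfar
          have h6 : 0 ≤ (‖z j‖ - qj) * (‖z j‖ + qj - 2 * ω₀) :=
            mul_nonneg (by linarith) (by linarith)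
          have h7 : -(ω₀ * ‖z j‖) ≤ ω₀ * p := by
            have := mul_le_mul_of_nonneg_left hp1 hω₀0
            linarith
          have h8 : (s * q + r i) * r j - (q - s * r i) * qj = 2 * (t₀ * r j) - 2 * (ω₀ * qj) := by
            rw [ht₀, hω₀]; ring
          have h9 : (‖z j‖ - qj) * (‖z j‖ + qj - 2 * ω₀) =
            ‖z j‖ ^ 2 - qj ^ 2 - 2 * (ω₀ * ‖z j‖) + 2 * (ω₀ * qj) := by ring
          linarith
        · have hD := h4 i j (Ne.symm hji) hnear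
          have hD2 : ‖z i - z j‖ ^ 2 ≤ 9 := by
            have := pow_le_pow_left₀ (norm_nonneg _) hD 2
            linarith
          rw [norm_sub_sq_real] at hD2
          have hpZ : p * Z = inner ℝ (z i) (z j) := by
            rw [hp, hy, inner_smul_left]
            simp
            field_simp
          have h5 := single_near hs hs0 hri hi.le hq0 hq2 hjs.le (h2 i j (Ne.symm hji)) hellj.le
          -- `2 p Z ≥ Z² + ‖z j‖² - 9`
          have h6 : Z ^ 2 + ‖z j‖ ^ 2 - 9 ≤ 2 * (p * Z) := by rw [hpZ]; linarith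
          have h7 : (Z ^ 2 - (5 + r j ^ 2)) / Z ≤ 2 * p := by
            rw [div_le_iff₀ hZpos]; linarith
          have h8 : (q ^ 2 - (5 + r j ^ 2)) / q ≤ (Z ^ 2 - (5 + r j ^ 2)) / Z := by
            rw [div_le_div_iff₀ hqpos hZpos]
            have h9 : 0 ≤ (Z - q) * (Z * q + (5 + r j ^ 2)) :=
              mul_nonneg (by linarith) (by positivity)
            linarith
          have h9 : 4 - 2 * (t₀ * r j) ≤ ω₀ * ((q ^ 2 - (5 + r j ^ 2)) / q) := by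
            rw [← mul_div_assoc, le_div_iff₀ hqpos]
            have e : q * (s * q + r i) * r j - (q - s * r i) * (1 + r i ^ 2 + r j ^ 2) / 2 - 4 * q
                = 2 * (t₀ * r j) * q - ω₀ * (1 + r i ^ 2 + r j ^ 2) - 4 * q := by
              rw [ht₀, hω₀]; ring
            rw [e] at h5
            rw [hq2]
            linarith
          have h10 := mul_le_mul_of_nonneg_left (h8.trans h7) hω₀0
          -- the excess of `‖z j‖²`
          have h11 : ω₀ * ((‖z j‖ ^ 2 - (4 - r j ^ 2)) / Z) + ω₀ * ((Z ^ 2 - (5 + r j ^ 2)) / Z) ≤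
              ω₀ * (2 * p) := by
            have : (‖z j‖ ^ 2 - (4 - r j ^ 2)) / Z + (Z ^ 2 - (5 + r j ^ 2)) / Z ≤ 2 * p := by
              rw [← add_div, div_le_iff₀ hZpos]; linarith
            have := mul_le_mul_of_nonneg_left this hω₀0
            linarith
          linarith
      -- interpolation between `(t₀, ω₀)` and `(2, 0)`
      obtain ⟨l, hl0, hl1, hl⟩ : ∃ l, 0 ≤ l ∧ l ≤ 1 ∧ ω = l * ω₀ := by
        rcases hω₀0.eq_or_lt with h | h
        · exact ⟨1, zero_le_one, le_rfl, by linarith⟩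
        · exact ⟨ω / ω₀, by positivity, (div_le_one h).2 hωω, by field_simp⟩
      have ht₀2 : t₀ ≤ 2 := by
        by_contra hlt
        push Not at hlt
        have := pow_lt_pow_left₀ hlt (by norm_num) (n := 2) (by norm_num)
        linarith [sq_nonneg ω₀]
      have htl : l * t₀ + 2 * (1 - l) ≤ t := by
        have h5 : (l * t₀ + 2 * (1 - l)) ^ 2 ≤ t ^ 2 := by
          have e : t ^ 2 - (l * t₀ + 2 * (1 - l)) ^ 2 = 4 * (l * (1 - l) * (2 - t₀)) +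
              l ^ 2 * (4 - (t₀ ^ 2 + ω₀ ^ 2)) := by
            rw [ht2, hl]; ring
          have h6 : 0 ≤ l * (1 - l) * (2 - t₀) :=
            mul_nonneg (mul_nonneg hl0 (by linarith)) (by linarith)
          rw [h40] at e
          linarith
        exact (abs_le_of_sq_le_sq' h5 ht0).2
      have hκ : 8 - (r j ^ 2 + ‖z j‖ ^ 2) ≤ 4 := by linarith [h1 j]
      have h5 : (l * t₀ + 2 * (1 - l)) * r j ≤ t * r j := mul_le_mul_of_nonneg_right htl hrj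
      have h6 : l * (8 - (r j ^ 2 + ‖z j‖ ^ 2)) ≤ l * (2 * (t₀ * r j + ω₀ * p)) :=
        mul_le_mul_of_nonneg_left (by linarith) hl0
      have h7 : (1 - l) * (8 - (r j ^ 2 + ‖z j‖ ^ 2)) ≤ (1 - l) * (4 * r j) :=
        mul_le_mul_of_nonneg_left (by linarith) (by linarith)
      have h8 : (t + r j) ^ 2 + ‖w - z j‖ ^ 2 = (t ^ 2 + ω ^ 2) + (r j ^ 2 + ‖z j‖ ^ 2) +
          2 * (t * r j) + 2 * (ω * p) := by rw [hdist]; ring
      rw [h8, ht2, hl]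
      linarith
  · intro j hj
    by_cases hji : j = i
    · subst hji
      rw [hwi]
      rcases hcase with ⟨-, h⟩ | h | ⟨h, h'⟩
      · exact h
      · exact h.le
      · exfalso
        have h5 : (2 : ℝ) ^ 2 ≤ t ^ 2 := by rw [ht2, h]; norm_num
        have h6 := (abs_le_of_sq_le_sq' h5 ht0).2
        linarith
    · exfalso
      have h5 := h2 i j (Ne.symm hji)
      linarith

/-- **The geometric step.** -/
theorem core {ι : Type*} {s : ℝ} (hs : s ^ 2 = 3) (hs0 : 0 < s) (r : ι → ℝ) (z : ι → H)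
    (h0 : ∀ i, 0 ≤ r i) (h1 : ∀ i, 4 ≤ r i ^ 2 + ‖z i‖ ^ 2)
    (h2 : ∀ i j, i ≠ j → s ≤ r i + r j)
    (h3 : ∀ i j k, i ≠ j → i ≠ k → j ≠ k → 2 * s ≤ r i + r j + r k)
    (h4 : ∀ i j, i ≠ j → r i + r j < 2 → ‖z i - z j‖ ≤ 3) :
    ∃ (t : ℝ) (w : H), s ≤ t ∧ t ^ 2 + ‖w‖ ^ 2 ≤ 4 ∧ (∀ i, 12 ≤ (t + r i) ^ 2 + ‖w - z i‖ ^ 2) ∧
      (∀ i, t + r i < 2 → ‖w - z i‖ ≤ 3) := by
  by_cases hi : ∃ i, r i < 1
  · obtain ⟨i, hi⟩ := hi
    by_cases hj : ∃ j, j ≠ i ∧ 7 * r i ^ 2 + 7 * r j ^ 2 - 2 * r i * r j ≤ 12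
    · obtain ⟨j, hji, hj⟩ := hj
      exact pair_case hs hs0 r z h1 h2 h3 h4 i j (Ne.symm hji) hi hj
    · push Not at hj
      exact single_case hs hs0 r z h0 h1 h2 h4 i hi hj
  · push Not at hi
    refine ⟨2, 0, ?_, by simp; norm_num, ?_, ?_⟩
    · nlinarith
    · intro i
      have := hi i
      have := h1 i
      rw [zero_sub, norm_neg]
      nlinarith
    · intro i h
      exfalso
      linarith [h0 i]

end space

end Pool.Agent.J4.H78.PC
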